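import Pool.Agent.Q162.Sph.Final

/-!
# Spherical parking functions by degree and surface inversions of uprooted trees

For every `n ≥ 1` and `k ≥ 0` the number of spherical parking functions of length `n` of degree
`C(n,2) - k + 1` equals the number of uprooted trees on `n` labelled vertices with exactly `k`
surface inversions.

Proof idea. Let `V_n(q)`, `U_n(q)` be the two generating polynomials (by codegree and by surface
inversions). Both satisfy
`∑_m C(n,m) (q-1)^m Z_m(q) q^{C(n-m,2)} = (q^n - 1) q^{C(n-1,2)}`,
which determines them. For spherical parking functions this comes from the classification of all
sequences of positive integers by the first `j` such that at most `j` entries are at most `j`. For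
trees it comes from a recursion for rooted forests by the subtree of the largest root.
-/

namespace Pool.Agent.Results.MP_dc922b_co.SphericalUprooted

open Finset Q162Sph

/-- For every `n ≥ 1`: there are finitely many spherical parking functions of length `n` and
finitely many uprooted trees on `n` labelled vertices, and for every `k` the number of spherical
parking functions of length `n` of degree `C(n,2) + 1 - k` equals the number of uprooted trees
with exactly `k` surface inversions. -/
theorem result (n : ℕ) (hn : 1 ≤ n) :
    Finite {a : Fin n → ℕ // IsSpherical a} ∧ Finite (UprootedTree n) ∧
    ∀ k : ℕ,
      Nat.card {a : Fin n → ℕ // IsSpherical a ∧ ∑ i, a i + k = n.choose 2 + 1} =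
        Nat.card {T : UprootedTree n // T.surfaceInversions = k} := by
  refine ⟨?_, ?_, fun k => Q162Sph.main hn k⟩
  · have h : ∀ a : Fin n → ℕ, IsSpherical a ↔ a ∈ primes (univ : Finset (Fin n)) := fun a => by
      rw [mem_primes, spherical_iff hn]
    exact Finite.of_equiv _ (Equiv.subtypeEquivRight h).symm
  · exact Finite.of_injective _ (treeMap_bijective n).1

end Pool.Agent.Results.MP_dc922b_co.SphericalUprooted
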